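import Pool.Graph.R_seed8.Y16.ST.Dos
import Pool.Agent.H812.Gi.Asm1
import Pool.Agent.H812.Gi.Fin

/-!
# The dimension of the density of states of Sturmian operators is invariant under the Gauss map

The proof uses the starting library of helper811 and his team.
-/

set_option autoImplicit false

open MeasureTheory

namespace Pool.Agent.Results.MP_e5ebf6_mp.GaussInvariance

open Pool.Agent.Helper434.PSCplx (L2)

/-- the value of a vector of `ℓ²(ℤ)` at a site; here `L2` is `lp (fun _ : ℤ => ℂ) 2` -/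
noncomputable def amp (u : L2) (n : ℤ) : ℂ := u n

/-- the characteristic function of `[1 - α, 1)` at `n α + ω mod 1` -/
noncomputable def chi (α ω : ℝ) (n : ℤ) : ℝ :=
  if 1 - α ≤ Int.fract ((n : ℝ) * α + ω) then 1 else 0

/-- `T` is the Sturmian operator with coupling `lam`, frequency `α` and phase `ω` -/
def IsSturmian (lam α ω : ℝ) (T : L2 →L[ℂ] L2) : Prop :=
  ∀ (u : L2) (n : ℤ), amp (T u) n =
    amp u (n + 1) + amp u (n - 1) + ((lam * chi α ω n : ℝ) : ℂ) * amp u n

/-- the number `⟨ψ, g(T) ψ⟩`, with the continuous functional calculus of self-adjoint operators -/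
noncomputable def form {X : Type} [NormedAddCommGroup X] [InnerProductSpace ℂ X] [CompleteSpace X]
    (g : ℝ → ℝ) (T : X →L[ℂ] X) (ψ : X) : ℝ := (inner ℂ ψ (cfc g T ψ)).re

/-- the unit vector at the site `0` -/
noncomputable def e0 : L2 := lp.single 2 (0 : ℤ) (1 : ℂ)

/-- `μ` is the density of states measure: a Borel probability measure such that for every bounded
continuous `g` the integral of `g` is the integral over the phases in `[0,1]` of
`⟨δ₀, g(H_ω) δ₀⟩` (which is a measurable function of the phase) -/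
def IsDensityOfStates (lam α : ℝ) (μ : Measure ℝ) : Prop :=
  IsProbabilityMeasure μ ∧ ∀ H : ℝ → L2 →L[ℂ] L2, (∀ ω, IsSturmian lam α ω (H ω)) →
    ∀ g : ℝ → ℝ, Continuous g → (∃ C, ∀ x, |g x| ≤ C) →
      Measurable (fun ω => form g (H ω) e0) ∧ ∫ x, g x ∂μ = ∫ ω in (0:ℝ)..1, form g (H ω) e0

/-- the upper Hausdorff dimension of a measure -/
noncomputable def upperHausdorffDim (μ : Measure ℝ) : ENNReal :=
  sInf {t | ∃ S : Set ℝ, MeasurableSet S ∧ μ Sᶜ = 0 ∧ t = dimH S}

/-- the frequencies: irrational numbers in `(0, 1)` -/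
def IsFreq (α : ℝ) : Prop := Irrational α ∧ α ∈ Set.Ioo (0:ℝ) 1

/-- the Gauss map: the fractional part of `1 / α` -/
noncomputable def gaussMap (α : ℝ) : ℝ := Int.fract (1 / α)

lemma isSturmian_iff {lam α ω : ℝ} {T : L2 →L[ℂ] L2} : IsSturmian lam α ω T ↔
    Pool.Agent.H695R3.ST.IsSchr (Pool.Agent.H695R3.ST.pot lam α ω) T := by
  have key : ∀ n : ℤ, lam * chi α ω n = Pool.Agent.H695R3.ST.pot lam α ω n := by
    intro n
    unfold chi Pool.Agent.H695R3.ST.pot
    rw [add_comm ((n : ℝ) * α) ω]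
    split_ifs <;> simp
  constructor
  · intro h u n
    have := h u n
    rw [key n] at this
    exact this
  · intro h u n
    have := h u n
    rw [← key n] at this
    exact this

lemma isDos_iff {lam α : ℝ} {μ : Measure ℝ} : IsDensityOfStates lam α μ ↔
    Pool.Agent.W811.Dos.IsDOS lam α μ := by
  constructor
  · rintro ⟨h1, h2⟩
    exact ⟨h1, fun H hH => h2 H fun ω => isSturmian_iff.2 (hH ω)⟩
  · rintro ⟨h1, h2⟩
    exact ⟨h1, fun H hH => h2 H fun ω => isSturmian_iff.1 (hH ω)⟩

lemma upDim_eq (μ : Measure ℝ) : upperHausdorffDim μ = Pool.Agent.W811.Dos.upDim μ := by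
  apply le_antisymm
  · refine le_iInf fun S => le_iInf fun hS => le_iInf fun hS0 => sInf_le ⟨S, hS, hS0, rfl⟩
  · refine le_sInf ?_
    rintro t ⟨S, hS, hS0, rfl⟩
    exact iInf_le_of_le S (iInf_le_of_le hS (iInf_le_of_le hS0 le_rfl))

/-- **Measurability and invariance.** For every coupling `lam > 0` and every irrational frequency
`α ∈ (0,1)` the Sturmian operators exist and are self-adjoint and there is exactly one density of
states measure `N α`; its upper Hausdorff dimension `D α` is a Borel function of the frequency (all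
the sets `{α : t ≤ D α}` are Borel sets), and it is invariant under the Gauss map:
`D (G α) = D α` for every irrational `α ∈ (0,1)` (and `G α` is an irrational number in `(0,1)`). -/
theorem result : ∀ lam : ℝ, 0 < lam → ∃ N : ℝ → Measure ℝ,
    (∀ α, IsFreq α → (∀ ω : ℝ, ∃ T, IsSturmian lam α ω T ∧ IsSelfAdjoint T) ∧
      IsDensityOfStates lam α (N α) ∧ ∀ μ', IsDensityOfStates lam α μ' → μ' = N α) ∧
    (∀ t : ENNReal, MeasurableSet {α : ℝ | IsFreq α ∧ t ≤ upperHausdorffDim (N α)}) ∧
    ∀ α, IsFreq α → IsFreq (gaussMap α) ∧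
      upperHausdorffDim (N (gaussMap α)) = upperHausdorffDim (N α) := by
  intro lam hlam
  obtain ⟨N, h1, h2, -, -⟩ := Pool.Agent.Y16.ST.dosT hlam
  refine ⟨N, ?_, ?_, ?_⟩
  · intro α hα
    obtain ⟨k1, k2⟩ := h1 α hα.1 hα.2
    refine ⟨fun ω => ?_, isDos_iff.2 k1, fun μ' hμ' => k2 μ' (isDos_iff.1 hμ')⟩
    obtain ⟨T, hT, hs⟩ := Pool.Agent.H695R3.ST.exists_schr
      (V := Pool.Agent.H695R3.ST.pot lam α ω) (C := lam)
      (Pool.Agent.W811.Dos.pot_abs hlam.le α ω)
    exact ⟨T, isSturmian_iff.2 hT, hs⟩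
  · intro t
    simp only [upDim_eq]
    have h := h2 t
    convert h using 3
    exact and_assoc
  · intro α hα
    have hg : gaussMap α = Pool.Agent.W811.Stu.gauss α := by
      unfold gaussMap Pool.Agent.W811.Stu.gauss
      rw [one_div]
    obtain ⟨g1, g2, g3⟩ := Pool.Agent.W811.Dos.gauss_good hα.1 hα.2.1 hα.2.2
    have hG : IsFreq (gaussMap α) := by rw [hg]; exact ⟨g1, g2, g3⟩
    refine ⟨hG, ?_⟩
    rw [upDim_eq, upDim_eq]
    refine Pool.Agent.H812.Gi.inv_of Pool.Agent.H812.Gi.fRel Pool.Agent.H812.Gi.fMeas hlam hα.1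
      hα.2.1 hα.2.2 (h1 α hα.1 hα.2).1 ?_
    rw [← hg]
    exact (h1 _ hG.1 hG.2).1

end Pool.Agent.Results.MP_e5ebf6_mp.GaussInvariance
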